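import Pool.Agent.Helper4.S7.StD2

/-!
# Project W7, module Lie: lifting with `ev7`
-/

set_option autoImplicit false

namespace Pool.Agent.Helper89.S7

open Pool.Agent.Helper14.CV (Homog EqC act Tl)
open Pool.Agent.Helper28.WK (SymP Tw evw Ok)
open Pool.Agent.Helper4.S7 Pool.Agent.Helper84.S7 Pool.Agent.Helper52.S7 Pool.Agent.Helper76.S7

/-- the reduction modulo seven -/
private def red (G : ℤ → ℤ → ℤ) : ℤ → ℤ → ZMod 7 := fun p q => ((G p q : ℤ) : ZMod 7)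

private theorem red_Tl (l : ℕ) (m : ℤ) (G : ℤ → ℤ → ℤ) : Tl l m (red G) = red (Tl l m G) := by
  funext p q
  change red G (l * p) q + ∑ j ∈ Finset.range l, red G (p + m * j * q) (l * q)
    = ((G (l * p) q + ∑ j ∈ Finset.range l, G (p + m * j * q) (l * q) : ℤ) : ZMod 7)
  rw [Int.cast_add, Int.cast_sum]
  rfl

private theorem red_add (G H : ℤ → ℤ → ℤ) : red G + red H = red (G + H) := by
  funext p q
  simp only [Pi.add_apply, red, Int.cast_add]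

private theorem red_sub (G H : ℤ → ℤ → ℤ) : red G - red H = red (G - H) := by
  funext p q
  simp only [Pi.sub_apply, red, Int.cast_sub]

private theorem red_smul (k : ℤ) (G : ℤ → ℤ → ℤ) : k • red G = red (k • G) := by
  funext p q
  simp only [Pi.smul_apply, red, smul_eq_mul, Int.cast_mul, zsmul_eq_mul]

private theorem red_Uo (m : ℤ) (G : ℤ → ℤ → ℤ) : Uo7 m (red G) = red (Uo7 m G) := by
  unfold Uo7
  simp only [red_Tl, red_smul, red_sub, red_add]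

private theorem red_Zo (m : ℤ) (G : ℤ → ℤ → ℤ) : Zo7 m (red G) = red (Zo7 m G) := by
  unfold Zo7
  simp only [red_Tl, red_smul, red_sub, red_add]

private theorem red_Vo (m : ℤ) (G : ℤ → ℤ → ℤ) : Vo7 m (red G) = red (Vo7 m G) := by
  unfold Vo7
  rw [red_Zo, red_Tl]

private theorem red_V8 (m : ℤ) (G : ℤ → ℤ → ℤ) : V8o m (red G) = red (V8o m G) := by
  unfold V8o
  simp only [red_Tl, red_smul, red_sub, red_add]

private theorem red_O5 (m : ℤ) (G : ℤ → ℤ → ℤ) : O5o m (red G) = red (O5o m G) := by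
  unfold O5o
  simp only [red_Tl, red_smul, red_sub, red_add]

private theorem red_iter (U : (ℤ → ℤ → ZMod 7) → (ℤ → ℤ → ZMod 7))
    (V : (ℤ → ℤ → ℤ) → (ℤ → ℤ → ℤ)) (h : ∀ G, U (red G) = red (V G)) (i : ℕ) (G : ℤ → ℤ → ℤ) :
    U^[i] (red G) = red (V^[i] G) := by
  induction i generalizing G with
  | zero => rfl
  | succ i ih =>
    rw [Function.iterate_succ_apply, Function.iterate_succ_apply, h, ih]

private theorem red_wd (m : ℤ) (G : ℤ → ℤ → ℤ) (c i j : ℕ) :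
    wd7 m (red G) c i j = red (wd7 m G c i j) := by
  unfold wd7
  rw [red_iter (V8o m) (V8o m) (red_V8 m), red_iter (Vo7 m) (Vo7 m) (red_Vo m),
    red_iter (Vo7 m) (Vo7 m) (red_Vo m), red_iter (Uo7 m) (Uo7 m) (red_Uo m),
    red_iter (Uo7 m) (Uo7 m) (red_Uo m), red_iter (Uo7 m) (Uo7 m) (red_Uo m), red_Zo, red_Zo,
    red_O5]
  split_ifs <;> rfl

private theorem red_ev (m : ℤ) (G : ℤ → ℤ → ℤ) (c i j : ℕ) :
    ev7 m (red G) c i j = ((ev7 m G c i j : ℤ) : ZMod 7) := by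
  unfold ev7
  rw [red_wd, Int.cast_sub]
  rfl

/-! `ev7` depends only on the class up to constants -/

private theorem eqC_add {G H G' H' : ℤ → ℤ → ZMod 7} (h : EqC G H) (h' : EqC G' H') :
    EqC (G + G') (H + H') := by
  obtain ⟨c, hc⟩ := h
  obtain ⟨c', hc'⟩ := h'
  refine ⟨c + c', fun p q hpq => ?_⟩
  simp only [Pi.add_apply]
  rw [hc p q hpq, hc' p q hpq]
  ring

private theorem eqC_sub {G H G' H' : ℤ → ℤ → ZMod 7} (h : EqC G H) (h' : EqC G' H') :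
    EqC (G - G') (H - H') := by
  obtain ⟨c, hc⟩ := h
  obtain ⟨c', hc'⟩ := h'
  refine ⟨c - c', fun p q hpq => ?_⟩
  simp only [Pi.sub_apply]
  rw [hc p q hpq, hc' p q hpq]
  ring

private theorem eqC_zsmul {G H : ℤ → ℤ → ZMod 7} (k : ℤ) (h : EqC G H) :
    EqC (k • G) (k • H) := by
  obtain ⟨c, hc⟩ := h
  refine ⟨k • c, fun p q hpq => ?_⟩
  simp only [Pi.smul_apply]
  rw [hc p q hpq, smul_add]

private theorem t2 {G H : ℤ → ℤ → ZMod 7} (m : ℤ) (h : EqC G H) : EqC (Tl 2 m G) (Tl 2 m H) :=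
  h.Tl (by norm_num) m

private theorem t3 {G H : ℤ → ℤ → ZMod 7} (m : ℤ) (h : EqC G H) : EqC (Tl 3 m G) (Tl 3 m H) :=
  h.Tl (by norm_num) m

private theorem t5 {G H : ℤ → ℤ → ZMod 7} (m : ℤ) (h : EqC G H) : EqC (Tl 5 m G) (Tl 5 m H) :=
  h.Tl (by norm_num) m

private theorem eqC_Uo {G H : ℤ → ℤ → ZMod 7} (m : ℤ) (h : EqC G H) : EqC (Uo7 m G) (Uo7 m H) :=
  eqC_add (eqC_sub (t2 m (t2 m h)) (eqC_zsmul 4 (t2 m h))) (eqC_zsmul 3 h)

private theorem eqC_Zo {G H : ℤ → ℤ → ZMod 7} (m : ℤ) (h : EqC G H) : EqC (Zo7 m G) (Zo7 m H) :=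
  eqC_add (eqC_add (t2 m (t2 m h)) (t2 m h)) (eqC_zsmul 2 h)

private theorem eqC_Vo {G H : ℤ → ℤ → ZMod 7} (m : ℤ) (h : EqC G H) : EqC (Vo7 m G) (Vo7 m H) :=
  t3 m (eqC_Zo m h)

private theorem eqC_V8 {G H : ℤ → ℤ → ZMod 7} (m : ℤ) (h : EqC G H) : EqC (V8o m G) (V8o m H) :=
  eqC_add (t3 m (eqC_sub (eqC_sub (eqC_add (eqC_zsmul 3 h) (eqC_zsmul 2 (t2 m h)))
    (t2 m (t2 m h))) (t3 m (t3 m h)))) (t5 m (eqC_add (t2 m (t2 m h)) (eqC_zsmul 4 h)))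

private theorem eqC_O5 {G H : ℤ → ℤ → ZMod 7} (m : ℤ) (h : EqC G H) : EqC (O5o m G) (O5o m H) :=
  eqC_add (eqC_add (eqC_add (eqC_add (t3 m (t2 m h)) (eqC_zsmul 2 (t2 m (t2 m h))))
    (eqC_zsmul 3 (t2 m h))) (eqC_zsmul 2 (t3 m h))) (eqC_zsmul 2 h)

private theorem eqC_iter (U : (ℤ → ℤ → ZMod 7) → (ℤ → ℤ → ZMod 7))
    (hU : ∀ G H, EqC G H → EqC (U G) (U H)) (i : ℕ) {G H : ℤ → ℤ → ZMod 7} (h : EqC G H) :
    EqC (U^[i] G) (U^[i] H) := by
  induction i generalizing G H with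
  | zero => exact h
  | succ i ih =>
    rw [Function.iterate_succ_apply, Function.iterate_succ_apply]
    exact ih (hU G H h)

private theorem eqC_wd (m : ℤ) {G H : ℤ → ℤ → ZMod 7} (h : EqC G H) (c i j : ℕ) :
    EqC (wd7 m G c i j) (wd7 m H c i j) := by
  have hU := fun (k : ℕ) {G H : ℤ → ℤ → ZMod 7} (h : EqC G H) =>
    eqC_iter (Uo7 m) (fun _ _ => eqC_Uo m) k h
  have hV := fun (k : ℕ) {G H : ℤ → ℤ → ZMod 7} (h : EqC G H) =>
    eqC_iter (Vo7 m) (fun _ _ => eqC_Vo m) k h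
  have h8 := fun (k : ℕ) {G H : ℤ → ℤ → ZMod 7} (h : EqC G H) =>
    eqC_iter (V8o m) (fun _ _ => eqC_V8 m) k h
  unfold wd7
  split_ifs
  · exact hU i (h8 j h)
  · exact eqC_Zo m (hU i (hV (2 * j) h))
  · exact eqC_Zo m (hU i (hV (2 * j + 1) h))
  · exact eqC_O5 m (hU i (h8 j h))

private theorem ev_congr7 (m : ℤ) {G H : ℤ → ℤ → ZMod 7} (h : EqC G H) (c i j : ℕ) :
    ev7 m G c i j = ev7 m H c i j := by
  obtain ⟨e, he⟩ := eqC_wd m h c i j
  unfold ev7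
  rw [he 1 0 (Or.inl one_ne_zero), he 0 1 (Or.inr one_ne_zero)]
  ring

/-- MODULE Lie. -/
theorem hLie (h : S7Lif) : S7Lie := by
  intro r s g hg
  obtain ⟨G, hG, h4, -⟩ := h r s g hg
  refine ⟨G, hG, fun c i j => ?_⟩
  rw [← red_ev]
  exact ev_congr7 _ h4 c i j

end Pool.Agent.Helper89.S7
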